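import Pool.Agent.H.MP_6e5331_al.B

set_option autoImplicit false

namespace Pool.Agent.Results.MP_6e5331_al.Counter

open FirstOrder FirstOrder.Language

universe u

/-- Function symbols of the language of groups. -/
inductive GSym : ℕ → Type
  | one : GSym 0
  | inv : GSym 1
  | mul : GSym 2

/-- The first-order language of groups. -/
def LG : Language := ⟨GSym, fun _ => Empty⟩

/-- A group as a structure for the language of groups. -/
@[reducible] def str (G : Type u) [Group G] : LG.Structure G where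
  funMap := fun {_} f v => match f with
    | GSym.one => 1
    | GSym.inv => (v 0)⁻¹
    | GSym.mul => v 0 * v 1
  RelMap := fun {_} r _ => r.elim

/-- A two-sided invariant order relation (not necessarily total). -/
def IsOrdering {G : Type u} [Group G] (r : G → G → Prop) : Prop :=
  (∀ a, r a a) ∧ (∀ a b, r a b → r b a → a = b) ∧ (∀ a b c, r a b → r b c → r a c) ∧
    ∀ a b x y, r a b → r (x * a * y) (x * b * y)

/-- A two-sided invariant total order relation. -/
def IsLinearOrdering {G : Type u} [Group G] (r : G → G → Prop) : Prop :=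
  IsOrdering r ∧ ∀ a b, r a b ∨ r b a

def Orderable (G : Type u) [Group G] : Prop := ∃ r : G → G → Prop, IsLinearOrdering r

def ProOrderable (G : Type u) [Group G] : Prop :=
  ∀ r : G → G → Prop, IsOrdering r → ∃ s : G → G → Prop, IsLinearOrdering s ∧ ∀ a b, r a b → s a b

def mu {α : Type} (s t : LG.Term α) : LG.Term α := Term.func GSym.mul ![s, t]
def iv {α : Type} (s : LG.Term α) : LG.Term α := Term.func GSym.inv ![s]
def on {α : Type} : LG.Term α := Term.func GSym.one ![]
def cj {α : Type} (a s : LG.Term α) : LG.Term α := mu (mu (iv s) a) s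

def sent : LG.Sentence :=
  ∼(∃' ∃' ∃' ∃' ∃' ∃' ∃' ((&5 =' mu (cj &0 &1) (cj &0 &2)) ⊓
    ((&6 =' mu (cj (iv &0) &3) (cj (iv &0) &4)) ⊓
    ((∃' ∃' (&5 =' mu (cj &5 &7) (cj &6 &8))) ⊓
    ((∃' ∃' (&6 =' mu (cj &5 &7) (cj &6 &8))) ⊓
    ((∀' ∀' ∀' ∀' ∃' ∃' (mu (mu (cj &5 &7) (cj &6 &8)) (mu (cj &5 &9) (cj &6 &10)) ='
      mu (cj &5 &11) (cj &6 &12))) ⊓
    (∀' ∀' ∼(mu (cj &5 &7) (cj &6 &8) =' on))))))))

theorem real (G : Type u) [Group G] :
    @Sentence.Realize LG G (str G) sent ↔ ¬ Pool.Agent.H.MP_6e5331_al.Bad G := by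
  let _ := str G
  simp only [sent, Sentence.Realize, Formula.Realize, BoundedFormula.realize_not,
    BoundedFormula.realize_ex, BoundedFormula.realize_all, BoundedFormula.realize_inf,
    BoundedFormula.realize_bdEqual]
  rfl

theorem result : ∃ φ : LG.Sentence,
    (∀ (G : Type u) [Group G], ProOrderable G → @Sentence.Realize LG G (str G) φ) ∧
    ∃ (G : Type) (_ : Group G), Orderable G ∧ ¬ @Sentence.Realize LG G (str G) φ := by
  refine ⟨sent, fun G _ hG => (real G).2 (Pool.Agent.H.MP_6e5331_al.not_bad ?_), ?_⟩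
  · intro r h1 h2 h3 h4
    obtain ⟨s, ⟨⟨_, k2, k3, k4⟩, k5⟩, k6⟩ := hG r ⟨h1, h2, h3, h4⟩
    exact ⟨s, k2, k3, k4, k5, k6⟩
  · obtain ⟨D⟩ := Pool.Agent.H.MP_6e5331_al.exDat
    obtain ⟨s, h1, h2, h3, h4, h5⟩ := Pool.Agent.H.MP_6e5331_al.ordered D
    exact ⟨Pool.Agent.H.MP_6e5331_al.Gp D, inferInstance, ⟨s, ⟨h1, h2, h3, h4⟩, h5⟩,
      fun h => (real _).1 h (Pool.Agent.H.MP_6e5331_al.bad D)⟩

end Pool.Agent.Results.MP_6e5331_al.Counter
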